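import Mathlib
import Pool.Agent.R234.RO.Fin

set_option autoImplicit false

/-!
# MP_07318d_nt: the remainder in the `2k`-th moment of zeta, `k ≥ 3`, is large for almost all `T`

For an integer `k ≥ 3` and a polynomial `P` (in particular the moment polynomial `P_k`) put
`R(T) = ∫_0^T |ζ(1/2+it)|^{2k} dt - ∫_0^T P(log (t/2π)) dt`. For every `δ > 0` there is `c > 0` such
that for all large `X` the set of `T ∈ [X, 2X]` with `|R(T)| < c (log T)^{k^2+2k-1}` has measure at
most `δ X`.

The proof: windows `[T, T+H]`, `H ≤ κ (log T)^{2k-1}`, on which the `2k`-th moment is not small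
against `H (log T)^{k^2}` are rare (fourth moment, comparison of a value of zeta with its local
means), so `R` decreases by a large amount on all other windows; a packing argument for the
translates of the set where `R` is small finishes. If `P` is too small compared with the moment
(Ramachandra's lower bound), then `R(T)` is even of the order of the moment for all large `T`.
-/

namespace Pool.Agent.Results.MP_07318d_nt.AlmostAllRemainder

open MeasureTheory Set Filter

theorem result (k : ℕ) (hk : 3 ≤ k) (P : Polynomial ℂ) (δ : ℝ) (hδ : 0 < δ) :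
    ∃ c : ℝ, 0 < c ∧ ∀ᶠ X : ℝ in atTop,
      volume {T : ℝ | T ∈ Icc X (2 * X) ∧
        ‖((∫ t in (0:ℝ)..T, ‖riemannZeta (1 / 2 + t * Complex.I)‖ ^ (2 * k) : ℝ) : ℂ) -
          ∫ t in (0:ℝ)..T, P.eval ((Real.log (t / (2 * Real.pi)) : ℝ) : ℂ)‖ <
          c * Real.log T ^ (k ^ 2 + 2 * k - 1)} ≤ ENNReal.ofReal (δ * X) :=
  Pool.Agent.R234.RO.part1 k hk P δ hδ

end Pool.Agent.Results.MP_07318d_nt.AlmostAllRemainder
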