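import Mathlib
import Pool.Agent.R234.RO.Fin

set_option autoImplicit false

/-!
# MP_07318d_nt: lower bounds for the means of the remainder in the `2k`-th moment of zeta

For an integer `k ≥ 1` and a polynomial `P` (in particular the moment polynomial `P_k`) put
`R(T) = ∫_0^T |ζ(1/2+it)|^{2k} dt - ∫_0^T P(log (t/2π)) dt`. For every integer `q ≥ 1` with
`deg P + 2 < k^2 q` (for `P_k`, `k ≥ 2`: every `q ≥ 2`) there is `c > 0` with
`∫_X^{4X} |R(T)|^q dT ≥ c X (log X)^{q (k^2 q - 1)}` for all large `X`.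
-/

namespace Pool.Agent.Results.MP_07318d_nt.RemainderMeans

open MeasureTheory Set Filter

theorem result (k q : ℕ) (hk : 1 ≤ k) (hq : 1 ≤ q) (P : Polynomial ℂ)
    (hP : P.natDegree + 2 < k ^ 2 * q) :
    ∃ c : ℝ, 0 < c ∧ ∀ᶠ X : ℝ in atTop,
      c * (X * Real.log X ^ (q * (k ^ 2 * q - 1))) ≤ ∫ T in X..(4 * X),
        ‖((∫ t in (0:ℝ)..T, ‖riemannZeta (1 / 2 + t * Complex.I)‖ ^ (2 * k) : ℝ) : ℂ) -
          ∫ t in (0:ℝ)..T, P.eval ((Real.log (t / (2 * Real.pi)) : ℝ) : ℂ)‖ ^ q :=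
  Pool.Agent.R234.RO.part2 k q hk hq P hP

end Pool.Agent.Results.MP_07318d_nt.RemainderMeans
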