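import Pool.Agent.W182.KO.Up4

set_option autoImplicit false

/-!
# MP_07318d_nt: the full main term of every shifted moment with a square root remainder, at both ends of the spectrum

For real vectors `x, y` of length `k` let `M(u, T) = ∫_0^T ∏_j ζ(1/2 + i(u + x_j + t)) ζ(1/2 + i(u + y_j - t)) dt`, the shifted
`2k`-th moment with a common additional shift `u`. We average over `u` at the scale `1 / log T` against
`φ(a) = ∫ ψ(ξ) e^{iξa} dξ`, `ψ = ψ₁ + ψ₂` smooth with compact support. The recipe of Conrey, Farmer, Keating, Rubinstein and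
Snaith predicts contributions of the frequencies `0 ≤ ξ ≤ 2k`. For every `k ≥ 1` and `1/2 ≤ θ < 1`, if `ψ₁` vanishes above
`2θ` and `ψ₂` vanishes below `2k - 2θ`, then the average is the term of the recipe without swaps for `ψ₁` plus the term with
all `k` swaps for `ψ₂`, with all lower order terms, up to `O(T^(θ + ε))`; for `θ = 1/2` this is the remainder `O(T^(1/2 + ε))`.
-/

namespace Pool.Agent.Results.MP_07318d_nt.SpectralEdges

open Complex MeasureTheory Filter Topology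
open scoped ContDiff

/-- `τ_x(n) = ∑_{n_1 ⋯ n_k = n} ∏_j n_j^(-i x_j)`, the coefficients of `∏_j ζ(s + i x_j)` -/
noncomputable def tau {k : ℕ} (x : Fin k → ℝ) (n : ℕ) : ℂ :=
  ∑ f ∈ Nat.finMulAntidiag k n, ∏ j, (f j : ℂ) ^ (-(x j * I))

/-- `M(u, T) = ∫_0^T ∏_j ζ(1/2 + i(u + x_j + t)) ∏_j ζ(1/2 + i(u + y_j - t)) dt` -/
noncomputable def mom {k : ℕ} (x y : Fin k → ℝ) (u T : ℝ) : ℂ :=
  ∫ t in (0:ℝ)..T, (∏ j, riemannZeta (1 / 2 + (u + x j + t : ℝ) * I)) * ∏ j, riemannZeta (1 / 2 + (u + y j - t : ℝ) * I)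

/-- `φ(a) = ∫ ψ(ξ) e^{iξa} dξ` -/
noncomputable def phi (ψ : ℝ → ℂ) (a : ℝ) : ℂ := ∫ ξ : ℝ, ψ ξ * exp (I * ξ * a)

/-- the term without swaps: `T ∑_n τ_x(n) τ_y(n) / n ψ(2 log n / log T)` -/
noncomputable def mainOne {k : ℕ} (x y : Fin k → ℝ) (ψ : ℝ → ℂ) (T : ℝ) : ℂ :=
  T * ∑' n : ℕ, tau x n * tau y n / n * ψ (2 * Real.log n / Real.log T)

/-- the term with `k` swaps:
`∑_n τ_{-x}(n) τ_{-y}(n) / n ∫_1^T (t/2π)^(-i ∑ (x_j + y_j)) ψ((2k log (t/2π) - 2 log n) / log T) dt` -/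
noncomputable def mainTwo {k : ℕ} (x y : Fin k → ℝ) (ψ : ℝ → ℂ) (T : ℝ) : ℂ :=
  ∑' n : ℕ, tau (fun j => -x j) n * tau (fun j => -y j) n / n *
    ∫ t in (1:ℝ)..T, exp ((-(∑ j, (x j + y j)) * Real.log (t / (2 * Real.pi)) : ℝ) * I) *
      ψ ((2 * k * Real.log (t / (2 * Real.pi)) - 2 * Real.log n) / Real.log T)

lemma tau_eq {k : ℕ} (x : Fin k → ℝ) (n : ℕ) : tau x n = W182.KO.tau (fun j => -(x j * I)) n := rfl

lemma tau_neg {k : ℕ} (x : Fin k → ℝ) (n : ℕ) : tau (fun j => -x j) n = W182.KO.tau (fun j => x j * I) n := by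
  unfold tau W182.KO.tau
  refine Finset.sum_congr rfl fun f _ => Finset.prod_congr rfl fun j _ => ?_
  congr 1
  push_cast
  ring

lemma phi_eq (ψ : ℝ → ℂ) (L u : ℝ) : phi ψ (L * u) = W182.KO.P ψ (L * u * I) := by
  unfold phi W182.KO.P
  congr 1; funext ξ
  congr 2
  push_cast
  ring

lemma mom_eq {k : ℕ} (x y : Fin k → ℝ) (u T : ℝ) : mom x y u T = ∫ t in (0:ℝ)..T,
    W182.KO.ZP x (1 / 2 + (u + t : ℝ) * I) * W182.KO.ZP y (1 / 2 + (u - t : ℝ) * I) := by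
  unfold mom W182.KO.ZP
  refine intervalIntegral.integral_congr fun t _ => ?_
  show _ = _
  congr 1
  · refine Finset.prod_congr rfl fun j _ => ?_
    congr 1
    push_cast
    ring
  · refine Finset.prod_congr rfl fun j _ => ?_
    congr 1
    push_cast
    ring

lemma int_one {k : ℕ} (x y : Fin k → ℝ) {ψ : ℝ → ℂ} (hψ : ContDiff ℝ ∞ ψ) (hc : HasCompactSupport ψ) {T : ℝ}
    (hT : Real.exp 1 ≤ T) : Integrable (fun u : ℝ => phi ψ (Real.log T * u) * mom x y u T) := by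
  have hT0 : 0 < T := (Real.exp_pos 1).trans_le hT
  have hL : 1 ≤ Real.log T := by rwa [Real.le_log_iff_exp_le hT0]
  obtain ⟨X, hX0, hX⟩ := W182.KO.exists_TF hψ hc
  obtain ⟨D, hD, h1⟩ := W182.KO.tau_ptw k (κ := 1) one_pos
  obtain ⟨C1, G1⟩ := W182.KO.ZP_DF x one_pos hD (h1 _) (le_refl (2 * k)) (le_max_left (W182.KO.RR x) (W182.KO.RR y))
  obtain ⟨C2, G2⟩ := W182.KO.ZP_DF y one_pos hD (h1 _) (le_refl (2 * k)) (le_max_right (W182.KO.RR x) (W182.KO.RR y))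
  have h2 := (W182.KO.I0_prodint hX G1 G2 hL T).integral_prod_right
  refine h2.congr (Eventually.of_forall fun u => ?_)
  show (∫ t : ℝ, W182.KO.P ψ (Real.log T * u * I) * (W182.KO.ZP x (1 / 2 + (u + t : ℝ) * I) *
    W182.KO.ZP y (1 / 2 + (u - t : ℝ) * I)) ∂(volume.restrict (Set.Ioc 0 T))) = phi ψ (Real.log T * u) * mom x y u T
  rw [integral_const_mul, phi_eq, mom_eq, intervalIntegral.integral_of_le hT0.le]

lemma phi_add {ψ₁ ψ₂ : ℝ → ℂ} (h₁ : ContDiff ℝ ∞ ψ₁) (c₁ : HasCompactSupport ψ₁) (h₂ : ContDiff ℝ ∞ ψ₂)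
    (c₂ : HasCompactSupport ψ₂) (a : ℝ) : phi (fun ξ => ψ₁ ξ + ψ₂ ξ) a = phi ψ₁ a + phi ψ₂ a := by
  have hi : ∀ {ψ : ℝ → ℂ}, ContDiff ℝ ∞ ψ → HasCompactSupport ψ → Integrable (fun ξ : ℝ => ψ ξ * exp (I * ξ * a)) := by
    intro ψ h c
    refine Continuous.integrable_of_hasCompactSupport ?_ c.mul_right
    have := h.continuous
    fun_prop
  unfold phi
  rw [← integral_add (hi h₁ c₁) (hi h₂ c₂)]
  congr 1; funext ξ
  ring

theorem result (k : ℕ) (hk : 1 ≤ k) (x y : Fin k → ℝ) (θ : ℝ) (hθ : 1 / 2 ≤ θ) (hθ1 : θ < 1)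
    (ψ₁ ψ₂ : ℝ → ℂ) (h₁ : ContDiff ℝ ∞ ψ₁) (c₁ : HasCompactSupport ψ₁) (s₁ : ∀ ξ : ℝ, 2 * θ < ξ → ψ₁ ξ = 0)
    (h₂ : ContDiff ℝ ∞ ψ₂) (c₂ : HasCompactSupport ψ₂) (s₂ : ∀ ξ : ℝ, ξ < 2 * k - 2 * θ → ψ₂ ξ = 0)
    (ε : ℝ) (hε : 0 < ε) :
    ∃ C T₀ : ℝ, ∀ T : ℝ, T₀ ≤ T →
      Integrable (fun u : ℝ => phi (fun ξ => ψ₁ ξ + ψ₂ ξ) (Real.log T * u) * mom x y u T) ∧
      ‖(∫ u : ℝ, phi (fun ξ => ψ₁ ξ + ψ₂ ξ) (Real.log T * u) * mom x y u T) -
        2 * Real.pi / Real.log T * (mainOne x y ψ₁ T + mainTwo x y ψ₂ T)‖ ≤ C * T ^ (θ + ε) := by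
  have hk0 : (1:ℝ) ≤ k := by exact_mod_cast hk
  obtain ⟨θ', a1, a2⟩ : ∃ θ' : ℝ, θ < θ' ∧ θ' ≤ min 1 (θ + ε) := ⟨min 1 (θ + ε), lt_min hθ1 (by linarith), le_rfl⟩
  have a3 : θ' ≤ 1 := a2.trans (min_le_left _ _)
  have a4 : θ' ≤ θ + ε := a2.trans (min_le_right _ _)
  obtain ⟨C1, T1, hC1, hT1, b1⟩ := W182.KO.shifted (ξ1 := 2 * θ) (ψ := ψ₁) ⟨h₁, c₁, s₁⟩ (by linarith) (θ := θ') (by linarith)
    (by linarith) a3 x y
  obtain ⟨C2, T2, hC2, hT2, b2⟩ := W182.KO.upper h₂ c₂ s₂ hk (by linarith) (θ := θ') (by linarith) x y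
  refine ⟨C1 + C2, max (max T1 T2) (Real.exp 1), fun T hT => ?_⟩
  have d1 : T1 ≤ T := (le_max_left _ _).trans ((le_max_left _ _).trans hT)
  have d2 : T2 ≤ T := (le_max_right _ _).trans ((le_max_left _ _).trans hT)
  have d3 : Real.exp 1 ≤ T := (le_max_right _ _).trans hT
  have d4 : 1 ≤ T := (Real.one_le_exp zero_le_one).trans d3
  have i1 := int_one x y h₁ c₁ d3
  have i2 := int_one x y h₂ c₂ d3
  have e1 : (fun u : ℝ => phi (fun ξ => ψ₁ ξ + ψ₂ ξ) (Real.log T * u) * mom x y u T) =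
      fun u : ℝ => phi ψ₁ (Real.log T * u) * mom x y u T + phi ψ₂ (Real.log T * u) * mom x y u T := by
    funext u
    rw [phi_add h₁ c₁ h₂ c₂]
    ring
  rw [e1]
  refine ⟨i1.add i2, ?_⟩
  rw [integral_add i1 i2]
  have f1 := b1 T d1
  have f2 := b2 T d2
  simp_rw [← phi_eq, ← mom_eq] at f1 f2
  have g1 : (T : ℂ) * (((2 * Real.pi / Real.log T : ℝ) : ℂ) *
          ∑' n : ℕ, W182.KO.tau (fun j => -(x j * I)) n * W182.KO.tau (fun j => -(y j * I)) n / n *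
            ψ₁ (2 * Real.log n / Real.log T)) = 2 * Real.pi / Real.log T * mainOne x y ψ₁ T := by
    unfold mainOne
    simp_rw [tau_eq]
    push_cast
    ring
  have g2 : ((2 * Real.pi / Real.log T : ℝ) : ℂ) *
        ∑' n : ℕ, W182.KO.tau (fun j => y j * I) n * W182.KO.tau (fun j => x j * I) n / n *
          ∫ t in (1:ℝ)..T, exp ((-(∑ j, (x j + y j)) * Real.log (t / (2 * Real.pi)) : ℝ) * I) *
            ψ₂ ((2 * k * Real.log (t / (2 * Real.pi)) - 2 * Real.log n) / Real.log T) =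
      2 * Real.pi / Real.log T * mainTwo x y ψ₂ T := by
    unfold mainTwo
    simp_rw [tau_neg]
    push_cast
    congr 1
    refine tsum_congr fun n => ?_
    rw [mul_comm (W182.KO.tau (fun j => (y j : ℂ) * I) n)]
  rw [g1] at f1
  rw [g2] at f2
  have h3 : T ^ θ' ≤ T ^ (θ + ε) := Real.rpow_le_rpow_of_exponent_le d4 a4
  calc _ = ‖((∫ u : ℝ, phi ψ₁ (Real.log T * u) * mom x y u T) - 2 * Real.pi / Real.log T * mainOne x y ψ₁ T) +
        ((∫ u : ℝ, phi ψ₂ (Real.log T * u) * mom x y u T) - 2 * Real.pi / Real.log T * mainTwo x y ψ₂ T)‖ := by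
        congr 1
        ring
    _ ≤ C1 * T ^ θ' + C2 * T ^ θ' := (norm_add_le _ _).trans (add_le_add f1 f2)
    _ = (C1 + C2) * T ^ θ' := by ring
    _ ≤ (C1 + C2) * T ^ (θ + ε) := mul_le_mul_of_nonneg_left h3 (by linarith)

end Pool.Agent.Results.MP_07318d_nt.SpectralEdges
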